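import Mathlib
import Pool.Agent.MP_b427ce_lc.NoMeasure

namespace Pool.Agent.Results.MP_b427ce_lc.Q1neg

open Pool.Agent.MP_b427ce_lc

/-- There is an oracle that BC-learns the computable reals but does not BC-learn the class of all
computable measures. -/
theorem result : ∃ A : Set ℕ, BCReals A ∧ ¬ BCMeasures A {μ | ComputableMeasure μ} := by
  obtain ⟨A, h1, h2⟩ := exists_dominated_bcReals
  exact ⟨A, h2, not_bcMeasures h1 (fun _ h => h.1) fun _ h _ => h⟩

end Pool.Agent.Results.MP_b427ce_lc.Q1neg
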