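import Mathlib
import Pool.Agent.MP_b427ce_lc.NoMeasure

namespace Pool.Agent.Results.MP_b427ce_lc.Q2neg

open Pool.Agent.MP_b427ce_lc

/-- There is an oracle that BC-learns the computable reals but does not BC-learn the class of all
continuous computable measures. -/
theorem result :
    ∃ A : Set ℕ, BCReals A ∧ ¬ BCMeasures A {μ | ComputableMeasure μ ∧ ∀ X, μ {X} = 0} := by
  obtain ⟨A, h1, h2⟩ := exists_dominated_bcReals
  exact ⟨A, h2, not_bcMeasures h1 (fun _ h => h.1.1) fun _ h h' => ⟨h, h'⟩⟩

end Pool.Agent.Results.MP_b427ce_lc.Q2neg
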